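import Pool.Agent.Helper70.KN.Goals4

/-!
# Packet TB4 of project KN (MP_20ee5e_ag)
-/

namespace Pool.Agent.Helper16.KN.TB4

open Pool.Agent.Helper70.KN

theorem t : S_TB4 := by
  intro N V L ω hF J η x t hJ hx ht htη hxJ hxt
  obtain ⟨_, _, _, _, _, hL, hN⟩ := hF
  rw [hN] at hx ⊢
  obtain ⟨hx0, hxL⟩ := hx
  have hden : 0 < 1 - η * t := by linarith [mul_comm t η]
  refine ⟨fun k => ?_, fun w hw => ?_⟩
  · show (0 : ℝ) ≤ if k ∈ J then (0 : ℝ) else (x k - t) / (1 - η * t)
    split_ifs with h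
    · exact le_rfl
    · exact div_nonneg (sub_nonneg.2 (hxt k h)) hden.le
  · have h1 : (1 : ℝ) ≤ ∑ k, w k * x k := hxL w hw
    have hc : ∑ k ∈ Jᶜ, w k = ∑ k, if k ∈ J then (0 : ℝ) else w k := by
      rw [← Finset.sum_subset (Finset.subset_univ Jᶜ)]
      · refine Finset.sum_congr rfl fun k hk => ?_
        rw [if_neg (Finset.mem_compl.1 hk)]
      · intro k _ hk
        rw [if_pos (by simpa using hk)]
    have hsum : ∑ k, w k * (if k ∈ J then (0 : ℝ) else (x k - t) / (1 - η * t)) =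
        (∑ k, w k * x k - t * ∑ k ∈ Jᶜ, w k) / (1 - η * t) := by
      rw [eq_div_iff hden.ne', Finset.sum_mul, hc, Finset.mul_sum, ← Finset.sum_sub_distrib]
      refine Finset.sum_congr rfl fun k _ => ?_
      by_cases h : k ∈ J
      · rw [if_pos h, if_pos h, hxJ k h]
        ring
      · rw [if_neg h, if_neg h, mul_assoc, div_mul_cancel₀ _ hden.ne']
        ring
    show (1 : ℝ) ≤ ∑ k, w k * (if k ∈ J then (0 : ℝ) else (x k - t) / (1 - η * t))
    rw [hsum, le_div_iff₀ hden]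
    have := mul_le_mul_of_nonneg_left (hJ w hw) ht
    nlinarith

end Pool.Agent.Helper16.KN.TB4
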